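import Mathlib
import Pool.Agent.T6.H29.MO.Grow

/-!
# The topological full group of the Morse subshift has a subgroup of intermediate growth

Q1 for the Morse subshift: YES.  The four involutions `a, b, c, d` of the Morse subshift `X`, which move
a point by at most one place: a place `q` of a sequence lies between the edges `q` and `q + 1`; `a`
moves it across the adjacent edge of 2-adic level 0, `b` across the adjacent edge of positive level, `c`
does the same if this level is odd (the two letters at the edge are equal), and `d` if it is even.  The
levels are seen in windows of length four.  The Grey code of the places identifies this group with the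
Grigorchuk group `G_ω`, `ω = 010101...`, whose growth is estimated with the weights of the starting files.

The same group acts on every extension of the Morse subshift.
-/

set_option autoImplicit false

namespace Pool.Agent.Results.MP_0e9457_al.MorseIntermediate

open Pool.Agent.T6.H29.MO

/-- The Morse subshift `MS` consists of the `x : ℤ → Bool` all of whose finite subwords occur in some
`σⁿ(a)`, `n ≥ 1`, where `σ(0) = 01`, `σ(1) = 10`; `T` is the left shift. -/
theorem shift_apply (x : MS) (i : ℤ) : (T x).1 i = x.1 (i + 1) := rfl

theorem mem_morseShift (x : ℤ → Bool) : x ∈ morseShift ↔ ∀ (i : ℤ) (l : ℕ), ∃ (n : ℕ) (a : Bool),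
    1 ≤ n ∧ (List.ofFn fun j : Fin l => x (i + (j : ℕ))) <:+: sbt^[n] [a] := Iff.rfl

/-- The topological full group `[[T]]` of the Morse subshift contains a finitely generated subgroup of
intermediate growth; the same holds for `[[S]]` for every homeomorphism `S` of a topological space `Y` that has
the Morse subshift as a factor. -/
theorem result :
    (∃ H : Subgroup (MS ≃ₜ MS), H ≤ fullGroup T ∧ IntermediateGrowth H) ∧
    ∀ (Y : Type) [TopologicalSpace Y] (S : Y ≃ₜ Y) (π : Y → MS), Continuous π →
      Function.Surjective π → (∀ y, π (S y) = T (π y)) →
      ∃ H : Subgroup (Y ≃ₜ Y), H ≤ fullGroup S ∧ IntermediateGrowth H := by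
  have h : ∀ (Y : Type) [TopologicalSpace Y] (S : Y ≃ₜ Y) (π : Y → MS), Continuous π →
      Function.Surjective π → (∀ y, π (S y) = T (π y)) →
      ∃ H : Subgroup (Y ≃ₜ Y), H ≤ fullGroup S ∧ IntermediateGrowth H := by
    intro Y _ S π hπ hsurj hS
    exact ⟨_, main S π hπ hS hsurj⟩
  exact ⟨h MS T id continuous_id Function.surjective_id (fun _ => rfl), h⟩

end Pool.Agent.Results.MP_0e9457_al.MorseIntermediate
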